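import Pool.Agent.MWP.Stmts

/-!
# Row ENL of block MWP (helper49)
-/

namespace Pool.Agent.MWP.H49

open Pool.Agent.Helper14_MV Pool.Agent.Helper2_MV Pool.Agent.MWF

theorem filter_dbl (p : ℕ → Bool) (l : List ℕ) : (dbl l).filter p = dbl (l.filter p) := by
  unfold dbl
  induction l with
  | nil => rfl
  | cons a l ih =>
    rw [List.flatMap_cons, List.filter_append, ih]
    cases h : p a with
    | true => simp [h]
    | false => simp [h]

/-- row ENL -/
theorem enl (hH : HexStmt) : EnlStmt := by
  intro v
  obtain ⟨m, hm⟩ : ∃ m, ∀ c ∈ v, c < m := by
    refine ⟨v.sum + 1, fun c hc => ?_⟩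
    have := List.single_le_sum (l := v) (fun x _ => Nat.zero_le x) c hc
    omega
  obtain ⟨h, hh⟩ := hH (v ++ [m, m + 1])
  refine ⟨v ++ [m, m + 1], h, hh, ?_, ?_⟩
  · have hc : Chn (v ++ [m, m + 1]) [m, m + 1] := by
      constructor
      · intro x hx
        exact List.mem_append_right _ hx
      · simp only [List.pairwise_cons, List.mem_singleton, forall_eq, List.not_mem_nil,
          IsEmpty.forall_iff, implies_true, List.Pairwise.nil, and_true]
        refine ⟨by omega, ?_⟩
        intro hs
        rw [pair_append] at hs
        rcases hs with hs | ⟨h1, _⟩ | hs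
        · have := hm _ (pair_mem hs).2
          omega
        · have := hm _ h1
          omega
        · rw [pair_cons] at hs
          rcases hs with ⟨h1, _⟩ | hs
          · omega
          · rw [pair_cons] at hs
            rcases hs with ⟨_, h2⟩ | hs
            · simp at h2
            · exact pair_nil hs
    have := hh.2 _ hc
    simpa using this
  · intro β
    have key : ∀ a b : List ℕ, (∀ c ∈ a, c < 2) → (∀ c ∈ b, c < 2) →
        RR β (dbl (0 :: ((v ++ [m, m + 1]).map (fun c => c + 3) ++ [1])) ++ 2 :: dbl a)
          (dbl (0 :: ((v ++ [m, m + 1]).map (fun c => c + 3) ++ [1])) ++ 2 :: dbl b) →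
        RR β (dbl (0 :: (v.map (fun c => c + 3) ++ [1])) ++ 2 :: dbl a)
          (dbl (0 :: (v.map (fun c => c + 3) ++ [1])) ++ 2 :: dbl b) := by
      intro a b ha hb hr
      have h1 := hr.filter (fun c => decide (c < m + 3))
      have hv : (v.map (fun c => c + 3)).filter (fun c => decide (c < m + 3)) =
          v.map (fun c => c + 3) := by
        rw [List.filter_eq_self]
        intro c hc
        rw [List.mem_map] at hc
        obtain ⟨d, hd, rfl⟩ := hc
        have := hm d hd
        simp only [decide_eq_true_eq]
        omega
      have hs : ∀ a : List ℕ, (∀ c ∈ a, c < 2) →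
          (dbl (0 :: ((v ++ [m, m + 1]).map (fun c => c + 3) ++ [1])) ++ 2 :: dbl a).filter
            (fun c => decide (c < m + 3)) =
          dbl (0 :: (v.map (fun c => c + 3) ++ [1])) ++ 2 :: dbl a := by
        intro a ha
        have haf : a.filter (fun c => decide (c < m + 3)) = a := by
          rw [List.filter_eq_self]
          intro c hc
          have := ha c hc
          simp only [decide_eq_true_eq]
          omega
        rw [List.filter_append, filter_dbl, List.filter_cons_of_pos (by simp),
          List.filter_cons_of_pos (by simp), filter_dbl, haf, List.filter_append,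
          List.map_append, List.filter_append, hv]
        simp
      rw [hs a ha, hs b hb] at h1
      exact h1
    constructor
    · exact key [0, 1] [0, 1, 0] (by simp) (by simp)
    · exact key [1, 0] [0, 1, 0] (by simp) (by simp)

end Pool.Agent.MWP.H49
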